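import Pool.Agent.TH699.TD.Num

/-!
Length-space trade-offs for dag-like refutations of dual pairs of hypergraphs.
-/

open Finset

namespace Pool.Agent.TH699.TD.Old.SpaceDual

open Pool.Agent.H642R2.Dual Pool.Agent.TH699.TD

/-- For every `d` there is a simple hypergraph `H` without empty edge on `32 · 4^d` vertices
(two copies of a set `W`), of total size `N = sz H` (edges and minimal transversals) between
`2^(12·2^d)` and `2^(24·2^d)`, such that for every `g ≥ 1` all (dag-like) semantic blackboard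
refutations, of length `l` and space `s`, of the clauses which state that `x` hits all edges of `H`
and contains no minimal transversal of `H` (and even of all one-sided axioms), whose lines have
tensor norm at most `g`, satisfy `(log₂ N)² ≤ 288 (s + 2) (log₂ l + 3) log₂ (1 + g)`.
Disjunctions of linear equations modulo 2 have norm `g = 1`, and linear inequalities with real
coefficients have norm `g = |W| + 1` with `log₂ (1 + g) ≤ 2 log₂ log₂ N`. -/
theorem result (d : ℕ) : ∃ (W : Type) (_ : Fintype W) (_ : DecidableEq W)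
    (H : Finset (Finset (W ⊕ W))),
    Fintype.card (W ⊕ W) = 32 * 4 ^ d ∧ IsAntichain (· ⊆ ·) (H : Set (Finset (W ⊕ W))) ∧ ∅ ∉ H ∧
    2 ^ (12 * 2 ^ d) ≤ sz H ∧ sz H ≤ 2 ^ (24 * 2 ^ d) ∧
    (∀ L : Line (W ⊕ W), ClauseAx (dualCnf H (Tr H)) L → OneSided H L) ∧
    (∀ (g : ℝ) (s l : ℕ) (cfg : ℕ → List (Line (W ⊕ W))), 1 ≤ g →
      IsBoard (OneSided H) s l cfg → (∀ i ≤ l, ∀ L ∈ cfg i, NormLine g L) →
      Real.logb 2 (sz H) ^ 2 ≤ 288 * (s + 2) * (Real.logb 2 l + 3) * Real.logb 2 (1 + g)) ∧
    (∀ L : Line (W ⊕ W), ParityLine L → NormLine 1 L) ∧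
    (∀ L : Line (W ⊕ W), LinearLine L → NormLine (Fintype.card W + 1) L) ∧
    Real.logb 2 (1 + ((Fintype.card W : ℝ) + 1)) ≤
      2 * Real.logb 2 (Real.logb 2 (sz H)) := by
  obtain ⟨W, _, _, H, hW, h1, h2, hlo, hup, hR, hnb⟩ := exists_hard d
  have hV : Fintype.card (W ⊕ W) = 32 * 4 ^ d := by
    rw [Fintype.card_sum, hW]
    ring
  refine ⟨W, _, _, H, hV, h1, h2, hlo, hup, fun L hL => hL.oneSided, ?_,
    fun L hL => hL.norm, fun L hL => hL.norm, ?_⟩
  · intro g s l cfg hg hb hp
    have hsq := sq_logb_le hup hlo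
    have hl : 1 ≤ l := by
      by_contra hl
      obtain rfl : l = 0 := by omega
      obtain ⟨L, hL, -⟩ := hb.final (fun _ => true)
      rw [hb.init] at hL
      simp at hL
    have h5 := (hnb _ (board_norm hb (by linarith) hp (Nat.le_pow_clog (by norm_num) l))).trans_le
      (board_bound hg s (Nat.clog 2 l))
    have h6 : (2 * 4 ^ d : ℝ) ≤ (s + 2) * (Nat.clog 2 l + 2) * Real.logb 2 (1 + g) := by
      have h7 := Real.logb_le_logb_of_le (b := 2) (by norm_num) (by positivity) h5.le
      rw [Real.logb_pow, Real.logb_pow] at h7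
      have h8 : Real.logb 2 4 = 2 := by
        rw [show (4 : ℝ) = 2 ^ (2 : ℕ) by norm_num, Real.logb_pow]
        simp
      rw [h8] at h7
      push_cast at h7
      linarith
    have h9 := clog_le l hl
    have hs0 : (0 : ℝ) ≤ s := Nat.cast_nonneg s
    have hlg : 0 ≤ Real.logb 2 (1 + g) := Real.logb_nonneg (by norm_num) (by linarith)
    calc Real.logb 2 (sz H) ^ 2 ≤ 288 * (2 * 4 ^ d) := by linarith
      _ ≤ 288 * ((s + 2) * (Nat.clog 2 l + 2) * Real.logb 2 (1 + g)) := by linarith
      _ ≤ 288 * ((s + 2) * (Real.logb 2 l + 3) * Real.logb 2 (1 + g)) := by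
          refine mul_le_mul_of_nonneg_left ?_ (by norm_num)
          refine mul_le_mul_of_nonneg_right ?_ hlg
          exact mul_le_mul_of_nonneg_left (by linarith) (by linarith)
      _ = _ := by ring
  · rw [hW]
    refine le_trans ?_ (log_norm_le hlo)
    exact Real.logb_le_logb_of_le (by norm_num) (by positivity) (by
      have : (0 : ℝ) ≤ ((16 * 4 ^ d : ℕ) : ℝ) := Nat.cast_nonneg _
      linarith)

end Pool.Agent.TH699.TD.Old.SpaceDual
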