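import Pool.Agent.TH699.TD.Num

/-!
Hypergraph dualization is quasi-polynomially hard for tree-like refutations over parities and over
linear inequalities, and easy for dag-like resolution on the same hypergraphs.
-/

open Finset

namespace Pool.Agent.TH699.TD.Old.TreeLikeDual

open Pool.Agent.H642R2.Dual Pool.Agent.TH699.TD

/-- For every `d` there is a simple hypergraph `H` without empty edge on `32 · 4^d` vertices
(two copies of a set `W`), of total size `N = sz H` (edges and minimal transversals) between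
`2^(12·2^d)` and `2^(24·2^d)`, such that
* the clauses which state that `x` hits all edges of `H` and contains no minimal transversal of `H`
  have a dag-like resolution refutation of length at most `N^2`, but
* for every `g ≥ 1` all tree-like semantic refutations of these clauses (and even of all one-sided
  axioms) whose lines have tensor norm at most `g` have at least `N^(log₂ N / (1728 log₂ (1 + 2g)))`
  leaves.
Disjunctions of linear equations modulo 2 have norm `g = 1`, and linear inequalities with real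
coefficients have norm `g = |W| + 1` with `log₂ (1 + 2g) ≤ 2 log₂ log₂ N`. -/
theorem result (d : ℕ) : ∃ (W : Type) (_ : Fintype W) (_ : DecidableEq W)
    (H : Finset (Finset (W ⊕ W))),
    Fintype.card (W ⊕ W) = 32 * 4 ^ d ∧ IsAntichain (· ⊆ ·) (H : Set (Finset (W ⊕ W))) ∧ ∅ ∉ H ∧
    2 ^ (12 * 2 ^ d) ≤ sz H ∧ sz H ≤ 2 ^ (24 * 2 ^ d) ∧
    (∃ π : List (Clause (W ⊕ W)), IsRes (dualCnf H (Tr H)) π ∧ ∅ ∈ π ∧ π.length ≤ sz H ^ 2) ∧
    (∀ L : Line (W ⊕ W), ClauseAx (dualCnf H (Tr H)) L → OneSided H L) ∧
    (∀ (g : ℝ) (t : Der (W ⊕ W)), 1 ≤ g → t.IsRefutation (OneSided H) → t.All (NormLine g) →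
      (sz H : ℝ) ^ (Real.logb 2 (sz H) / (1728 * Real.logb 2 (1 + 2 * g))) ≤ t.leaves) ∧
    (∀ L : Line (W ⊕ W), ParityLine L → NormLine 1 L) ∧
    (∀ L : Line (W ⊕ W), LinearLine L → NormLine (Fintype.card W + 1) L) ∧
    Real.logb 2 (1 + 2 * ((Fintype.card W : ℝ) + 1)) ≤
      2 * Real.logb 2 (Real.logb 2 (sz H)) := by
  obtain ⟨W, _, _, H, hW, h1, h2, hlo, hup, hR, hnb⟩ := exists_hard d
  have hV : Fintype.card (W ⊕ W) = 32 * 4 ^ d := by
    rw [Fintype.card_sum, hW]
    ring
  have hszpos : 0 < sz H := lt_of_lt_of_le (by positivity) hlo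
  refine ⟨W, _, _, H, hV, h1, h2, hlo, hup, hR, fun L hL => hL.oneSided, ?_,
    fun L hL => hL.norm, fun L hL => hL.norm, ?_⟩
  · intro g t hg ht hp
    have hsq := sq_logb_le hup hlo
    have hlg : 0 < Real.logb 2 (1 + 2 * g) := Real.logb_pos (by norm_num) (by linarith)
    -- the number `y`
    obtain ⟨y, hy⟩ : ∃ y : ℝ, y = 2 * 4 ^ d / Real.logb 2 (1 + 2 * g) := ⟨_, rfl⟩
    have hy0 : 0 ≤ y := by
      rw [hy]
      positivity
    have hyl : y * Real.logb 2 (1 + 2 * g) = 2 * 4 ^ d := by
      rw [hy]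
      field_simp
    have hpow : (1 + 2 * g) ^ y = (4 : ℝ) ^ 4 ^ d := by
      have h3 : (1 + 2 * g) = 2 ^ Real.logb 2 (1 + 2 * g) :=
        (Real.rpow_logb (by norm_num) (by norm_num) (by linarith)).symm
      rw [h3, ← Real.rpow_mul (by norm_num), mul_comm, hyl]
      have h4 : (2 * 4 ^ d : ℝ) = ((2 * 4 ^ d : ℕ) : ℝ) := by push_cast; rfl
      rw [h4, Real.rpow_natCast, pow_mul]
      norm_num
    have key : (2 : ℝ) ^ (y / 6) ≤ t.leaves := by
      by_cases hy2 : y < 2
      · have h3 : 2 ≤ t.leaves := by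
          by_contra hlt
          obtain ⟨c, hc⟩ := (ht.1.ok).one (by omega)
          have h4 : NB (fun x y => bv (fn H (Sum.elim x y))) 1 := by
            cases c with
            | false =>
              refine (NB.zero.mono zero_le_one).congr fun x y => ?_
              rw [hc _ rfl (ht.2 _)]
              rfl
            | true =>
              refine NB.one.congr fun x y => ?_
              rw [hc _ rfl (ht.2 _)]
              rfl
          exact absurd (hnb 1 h4) (not_lt.2 (one_le_pow₀ (by norm_num)))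
        calc (2 : ℝ) ^ (y / 6) ≤ 2 ^ (1 : ℝ) :=
              Real.rpow_le_rpow_of_exponent_le (by norm_num) (by linarith)
          _ = 2 := Real.rpow_one _
          _ ≤ t.leaves := by exact_mod_cast h3
      · rw [not_lt] at hy2
        have hfl : 2 ≤ ⌊y⌋₊ := Nat.le_floor (by exact_mod_cast hy2)
        have hfl1 : (⌊y⌋₊ : ℝ) ≤ y := Nat.floor_le hy0
        have hfl2 : y < ⌊y⌋₊ + 1 := Nat.lt_floor_add_one y
        obtain ⟨h, hh⟩ : ∃ h : ℕ, ⌊y⌋₊ = h + 1 := ⟨⌊y⌋₊ - 1, by omega⟩
        rw [hh] at hfl hfl1 hfl2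
        push_cast at hfl1 hfl2
        have h1h : 1 ≤ h := by omega
        have h1h' : (1 : ℝ) ≤ h := by exact_mod_cast h1h
        have hcond : g * (1 + 2 * g) ^ h ≤ 4 ^ 4 ^ d := by
          calc g * (1 + 2 * g) ^ h ≤ (1 + 2 * g) * (1 + 2 * g) ^ h :=
                mul_le_mul_of_nonneg_right (by linarith) (by positivity)
            _ = (1 + 2 * g) ^ ((h : ℝ) + 1) := by
                rw [← pow_succ', ← Real.rpow_natCast]
                push_cast
                rfl
            _ ≤ (1 + 2 * g) ^ y := Real.rpow_le_rpow_of_exponent_le (by linarith) hfl1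
            _ = 4 ^ 4 ^ d := hpow
        have hgen : (3 / 2 : ℝ) ^ h < t.leaves := by
          by_contra hne
          rw [not_lt] at hne
          have h5 : (t.leaves : ℝ) * 2 ^ h ≤ 3 ^ h := by
            have h6 := mul_le_mul_of_nonneg_right hne (show (0 : ℝ) ≤ 2 ^ h by positivity)
            rw [← mul_pow] at h6
            norm_num at h6
            exact h6
          have h6 : t.leaves * 2 ^ h ≤ 3 ^ h := by exact_mod_cast h5
          exact absurd (hnb _ (tree_norm ht hp h6)) (not_lt.2 hcond)
        refine le_trans ?_ ((two_rpow_half_le h).trans hgen.le)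
        refine Real.rpow_le_rpow_of_exponent_le (by norm_num) ?_
        linarith
    refine le_trans ?_ key
    rw [rpow_logb_eq hszpos]
    refine Real.rpow_le_rpow_of_exponent_le (by norm_num) ?_
    rw [hy]
    have e1 : Real.logb 2 (sz H) * (Real.logb 2 (sz H) / (1728 * Real.logb 2 (1 + 2 * g))) =
        Real.logb 2 (sz H) ^ 2 / 1728 / Real.logb 2 (1 + 2 * g) := by
      field_simp
    have e2 : 2 * 4 ^ d / Real.logb 2 (1 + 2 * g) / 6 =
        (4 ^ d / 3) / Real.logb 2 (1 + 2 * g) := by
      field_simp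
      ring
    rw [e1, e2]
    refine div_le_div_of_nonneg_right ?_ hlg.le
    linarith
  · rw [hW]
    exact log_norm_le hlo

end Pool.Agent.TH699.TD.Old.TreeLikeDual
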